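import Mathlib

/-!
# Twisted special values of abelian varieties: data and known facts

`Ω` is an algebraic closure of `ℚ`, embedded into `ℂ` by `j`; `G = Gal(F/ℚ)`.
-/

namespace Pool.Agent.N522.DP

/-- an algebraic closure of `ℚ` -/
abbrev Qbar : Type := AlgebraicClosure ℚ

/-- its absolute Galois group -/
abbrev Gal : Type := Qbar ≃ₐ[ℚ] Qbar

/-- the conjugate character `g ∘ ψ` -/
noncomputable def conj {G : Type} [CommGroup G] (g : Gal) (ψ : G →* Qbar) : G →* Qbar :=
  (g : Qbar →* Qbar).comp ψ

/-- the field `ℚ(ψ)` generated by the values of `ψ` -/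
noncomputable def valueField {G : Type} [CommGroup G] (ψ : G →* Qbar) : IntermediateField ℚ Qbar :=
  IntermediateField.adjoin ℚ (Set.range ψ)

/-- Abelian varieties over `ℚ` and the numbers `𝓛_C(A, ψ)`, for a fixed totally real, tamely
ramified abelian field `F` with Galois group `G`. -/
structure Theory (G : Type) [CommGroup G] where
  /-- the embedding of `ℚ̄` into `ℂ` -/
  j : Qbar →+* ℂ
  /-- abelian varieties over `ℚ` -/
  AV : Type
  /-- products -/
  prod : AV → AV → AV
  /-- isogenous abelian varieties -/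
  Isog : AV → AV → Prop
  /-- simple abelian varieties of `GL₂`-type: `End(A) ⊗ ℚ` contains a number field of degree
  `dim A` -/
  GL2 : AV → Prop
  /-- the number `𝓛_C(A, ψ) = τ^*(ψ̌)^d L_C(A, ψ, 1) / Ω_A^+` -/
  value : AV → (G →* Qbar) → ℂ

/-- Q1 for `A`: `𝓛_C(A, ψ)` lies in `ℚ(ψ)`, and `g(𝓛_C(A, ψ)) = 𝓛_C(A, g ∘ ψ)`. -/
def Q1 {G : Type} [CommGroup G] (T : Theory G) (A : T.AV) : Prop :=
  ∀ ψ : G →* Qbar, ∃ x ∈ valueField ψ, T.j x = T.value A ψ ∧
    ∀ g : Gal, T.j (g x) = T.value A (conj g ψ)

/-- The values attached to a newform `f` of weight two: a finite set `Σ` with an action of the Galois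
group (the embeddings `σ` of the field of coefficients), numbers
`a(σ, ψ) = τ^*(ψ̌) L_C(f^σ, ψ, 1) / ω_σ^+` with `g(a(σ, ψ)) = a(gσ, g ∘ ψ)`, and a rational number
`q`. -/
structure Newform (G : Type) [CommGroup G] where
  /-- the embeddings of the field of coefficients -/
  S : Type
  [fin : Fintype S]
  [act : MulAction Gal S]
  /-- the normalized special values -/
  a : S → (G →* Qbar) → Qbar
  /-- the quotient of `∏ ω_σ^+` and `Ω_A^+` -/
  q : ℚ
  /-- Galois equivariance -/
  equivariant : ∀ (g : Gal) (s : S) (ψ : G →* Qbar), g (a s ψ) = a (g • s) (conj g ψ)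

attribute [instance] Newform.fin Newform.act

/-- Known facts.

* `shimura`: a simple abelian variety of `GL₂`-type over `ℚ` is isogenous to the variety `A_f` of a
  newform `f` (Ribet, Khare–Wintenberger), so `L(A, ψ, s) = ∏_σ L(f^σ, ψ, s)`; the numbers
  `a(σ, ψ)` are algebraic and equivariant (Shimura); `Ω_A^+` is a rational multiple of `∏_σ ω_σ^+`;
* `prod`, `isog`: the `L`-function of a product is the product of the `L`-functions, the real period
  of a product is the product of the real periods, isogenous varieties have the same `L`-function and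
  real periods with rational quotient. -/
structure Facts {G : Type} [CommGroup G] (T : Theory G) : Prop where
  shimura : ∀ A : T.AV, T.GL2 A → ∃ f : Newform G, ∀ ψ, T.value A ψ =
    T.j ((f.q : Qbar) * ∏ s, f.a s ψ)
  prod : ∀ A B : T.AV, ∃ q : ℚ, ∀ ψ, T.value (T.prod A B) ψ = q * (T.value A ψ * T.value B ψ)
  isog : ∀ A B : T.AV, T.Isog A B → ∃ q : ℚ, ∀ ψ, T.value B ψ = q * T.value A ψ

/-- Abelian varieties isogenous to a product of simple abelian varieties in the class `𝒞`: the
smallest class containing `𝒞` and closed under products and isogenies. -/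
inductive Gen {G : Type} [CommGroup G] (T : Theory G) (𝒞 : T.AV → Prop) : T.AV → Prop
  | base (A : T.AV) : 𝒞 A → Gen T 𝒞 A
  | prod (A B : T.AV) : Gen T 𝒞 A → Gen T 𝒞 B → Gen T 𝒞 (T.prod A B)
  | isog (A B : T.AV) : T.Isog A B → Gen T 𝒞 A → Gen T 𝒞 B

end Pool.Agent.N522.DP
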