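import Pool.Agent.N522.DP.Defs

/-!
# The period conjecture for products of abelian varieties of `GL₂`-type
-/

namespace Pool.Agent.N522.DP

variable {G : Type} [CommGroup G]

theorem conj_eq_of_fix (g : Gal) (ψ : G →* Qbar) (h : ∀ x ∈ valueField ψ, g x = x) :
    conj g ψ = ψ := by
  ext γ
  exact h (ψ γ) (IntermediateField.subset_adjoin ℚ _ ⟨γ, rfl⟩)

theorem isGalois_qbar : IsGalois ℚ Qbar := by
  have h : @Algebra.IsAlgebraic ℚ (AlgebraicClosure ℚ) _ _ (AlgebraicClosure.instAlgebra ℚ) :=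
    inferInstance
  have h2 : Algebra.IsAlgebraic ℚ Qbar := by
    convert h
    exact Subsingleton.elim _ _
  have h3 : IsAlgClosed Qbar := inferInstance
  have h0 : IsAlgClosure ℚ Qbar := ⟨h3, h2⟩
  have h1 : Normal ℚ Qbar := IsAlgClosure.normal ℚ Qbar
  exact {}

/-- an element of `ℚ̄` fixed by all automorphisms fixing `ℚ(ψ)` lies in `ℚ(ψ)` -/
theorem mem_valueField (ψ : G →* Qbar) (x : Qbar)
    (h : ∀ g : Gal, conj g ψ = ψ → g x = x) : x ∈ valueField ψ := by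
  have := isGalois_qbar
  have h1 := InfiniteGalois.fixedField_fixingSubgroup (valueField ψ)
  rw [← h1]
  intro g
  apply h
  apply conj_eq_of_fix
  intro y hy
  exact (mem_fixingSubgroup_iff _).mp g.2 y hy

theorem q1_iff (T : Theory G) (A : T.AV) : Q1 T A ↔ ∀ ψ : G →* Qbar, ∃ x : Qbar,
    T.j x = T.value A ψ ∧ ∀ g : Gal, T.j (g x) = T.value A (conj g ψ) := by
  constructor
  · intro h ψ
    obtain ⟨x, -, hx⟩ := h ψ
    exact ⟨x, hx⟩
  · intro h ψ
    obtain ⟨x, h1, h2⟩ := h ψ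
    refine ⟨x, mem_valueField ψ x fun g hg => ?_, h1, h2⟩
    apply T.j.injective
    rw [h2, hg, h1]

theorem q1_gl2 (T : Theory G) (hT : Facts T) (A : T.AV) (hA : T.GL2 A) : Q1 T A := by
  obtain ⟨f, hf⟩ := hT.shimura A hA
  rw [q1_iff]
  intro ψ
  refine ⟨_, (hf ψ).symm, fun g => ?_⟩
  rw [hf, map_mul, map_prod]
  congr 1
  congr 1
  · exact map_ratCast g f.q
  · rw [← Equiv.prod_comp (MulAction.toPerm g) (fun s => f.a s (conj g ψ))]
    exact Finset.prod_congr rfl fun s _ => f.equivariant g s ψ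

theorem q1_prod (T : Theory G) (hT : Facts T) (A B : T.AV) (hA : Q1 T A) (hB : Q1 T B) :
    Q1 T (T.prod A B) := by
  obtain ⟨q, hq⟩ := hT.prod A B
  rw [q1_iff] at *
  intro ψ
  obtain ⟨x, hx1, hx2⟩ := hA ψ
  obtain ⟨y, hy1, hy2⟩ := hB ψ
  refine ⟨(q : Qbar) * (x * y), ?_, fun g => ?_⟩
  · rw [hq, map_mul, map_mul, hx1, hy1, map_ratCast]
  · rw [hq, map_mul, map_mul, map_mul, map_mul, hx2, hy2, map_ratCast, map_ratCast]

theorem q1_isog (T : Theory G) (hT : Facts T) (A B : T.AV) (h : T.Isog A B) (hA : Q1 T A) :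
    Q1 T B := by
  obtain ⟨q, hq⟩ := hT.isog A B h
  rw [q1_iff] at *
  intro ψ
  obtain ⟨x, hx1, hx2⟩ := hA ψ
  refine ⟨(q : Qbar) * x, ?_, fun g => ?_⟩
  · rw [hq, map_mul, hx1, map_ratCast]
  · rw [hq, map_mul, map_mul, hx2, map_ratCast, map_ratCast]

theorem q1_gen (T : Theory G) (hT : Facts T) (𝒞 : T.AV → Prop) (h𝒞 : ∀ A, 𝒞 A → Q1 T A)
    (A : T.AV) (h : Gen T 𝒞 A) : Q1 T A := by
  induction h with
  | base A h => exact h𝒞 A h
  | prod A B _ _ ih1 ih2 => exact q1_prod T hT A B ih1 ih2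
  | isog A B h _ ih => exact q1_isog T hT A B h ih

end Pool.Agent.N522.DP
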